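import Mathlib
import Pool.Agent.Lib.MP_3b2b47_co.Cases

namespace Pool.Agent.Results.MP_3b2b47_co.EveryDimension

open Set MeasureTheory Pointwise

/-- the translates x i + C have pairwise disjoint interiors -/
def Packing {d n : ℕ} (C : Set (EuclideanSpace ℝ (Fin d)))
    (x : Fin n → EuclideanSpace ℝ (Fin d)) : Prop :=
  ∀ i j, i ≠ j → Disjoint (interior (x i +ᵥ C)) (interior (x j +ᵥ C))

/-- any two translates are separated by a hyperplane that meets the interior of no translate -/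
def Separable {d n : ℕ} (C : Set (EuclideanSpace ℝ (Fin d)))
    (x : Fin n → EuclideanSpace ℝ (Fin d)) : Prop :=
  ∀ i j, i ≠ j → ∃ (f : EuclideanSpace ℝ (Fin d) →L[ℝ] ℝ) (c : ℝ), f ≠ 0 ∧
    (∀ p ∈ x i +ᵥ C, f p ≤ c) ∧ (∀ p ∈ x j +ᵥ C, c ≤ f p) ∧
    ∀ k, ∀ p ∈ interior (x k +ᵥ C), f p ≠ c

/-- volume of the convex hull of the union of the translates -/
noncomputable def hullVol {d n : ℕ} (C : Set (EuclideanSpace ℝ (Fin d)))
    (x : Fin n → EuclideanSpace ℝ (Fin d)) : ENNReal :=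
  volume (convexHull ℝ (⋃ i, x i +ᵥ C))

theorem result (d : ℕ) (hd : 3 ≤ d) :
    ∃ (C : Set (EuclideanSpace ℝ (Fin d))) (n : ℕ) (x : Fin n → EuclideanSpace ℝ (Fin d)),
      Convex ℝ C ∧ IsCompact C ∧ (interior C).Nonempty ∧ C = -C ∧ 1 < n ∧ n ≤ 20 ∧
      Packing C x ∧ Separable C x ∧
      ∀ y : Fin n → EuclideanSpace ℝ (Fin d), Collinear ℝ (Set.range y) → Packing C y →
        hullVol C x < hullVol C y := by
  obtain ⟨n, h1, h2, C, x, a1, a2, a3, a4, a5, a6, a7⟩ :=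
    Pool.Agent.Lib.MP_3b2b47_co.beats_all d hd
  exact ⟨C, n, x, a1, a2, a3, a4, h1, h2, a5, a6, a7⟩

end Pool.Agent.Results.MP_3b2b47_co.EveryDimension
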